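import Pool.Agent.Helper17.PP2.Goals
import Pool.Agent.Helper30.PP.COSB

/-! Packet PP2-R_OSA of project PP, stage 3 (helper17, MP_fc6b1e_nt). -/

set_option autoImplicit false

namespace Pool.Agent.Helper30.PP2

open Finset
open Pool.Agent.Helper17.PP Pool.Agent.Helper17.PP0 Pool.Agent.Helper17.PP2
open Pool.Agent.Helper30.PP (mem_blk nm_pos sum_swap decomp rsj)

variable {p : ℕ} {B B₀ k U Λ C : Type} [Field k] [AddCommGroup U] [Module k U]
    [AddCommGroup Λ] [Module k Λ] [AddCommGroup C] (S : Sys p B B₀ k U Λ C)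

open Classical in
lemma R_congr [Algebra (ZMod p) k] (b : Finset B) (x : U) (c c' : B → k) (q : B)
    (hq : c q = c' q) (h : ∀ q' ∈ b, c q' = c' q') : S.R b x c q = S.R b x c' q := by
  unfold Sys.R
  rw [hq]
  congr 2
  exact sum_congr rfl fun q' hq' => by rw [h q' (mem_of_mem_erase hq')]

lemma ph_congr [Algebra (ZMod p) k] (ψ : AddChar k ℂ) (χ : AddChar Λ ℂ) (b : Finset B)
    (x : U) (c c' y y' : B → k) (hc : ∀ q ∈ b, c q = c' q) (hy : ∀ q ∈ b, y q = y' q) :
    ph S ψ χ b x c y = ph S ψ χ b x c' y' := by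
  unfold ph
  have h1 : ∑ q ∈ b, S.lam q (c q) = ∑ q ∈ b, S.lam q (c' q) :=
    sum_congr rfl fun q hq => by rw [hc q hq]
  have h2 : ∏ q ∈ b, ψ (y q * S.R b x c q) = ∏ q ∈ b, ψ (y' q * S.R b x c' q) :=
    prod_congr rfl fun q hq => by rw [hy q hq, R_congr S b x c c' q (hc q hq) hc]
  rw [h1, h2]

open Classical in
lemma R_ins_self [Algebra (ZMod p) k] (b : Finset B) (x : U) (c : B → k) (q : B) (hq : q ∉ b) :
    S.R (insert q b) x c q = S.R b x c q := by
  unfold Sys.R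
  rw [erase_insert hq, erase_eq_of_notMem hq]

open Classical in
lemma R_ins [Algebra (ZMod p) k] (b : Finset B) (x : U) (c : B → k) (q q' : B) (hq : q ∉ b)
    (hq' : q' ∈ b) :
    S.R (insert q b) x c q' =
      S.R b x c q' + (c q * S.a q' q + c q' * algebraMap (ZMod p) k (S.kap q' q)) := by
  unfold Sys.R
  have hne : q ≠ q' := fun h => hq (h ▸ hq')
  have h1 : q ∉ b.erase q' := fun h => hq (mem_of_mem_erase h)
  rw [erase_insert_of_ne hne, sum_insert h1, sum_insert h1]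
  ring

open Classical in
lemma ph_insert [Algebra (ZMod p) k] (ψ : AddChar k ℂ) (χ : AddChar Λ ℂ) (b : Finset B)
    (x : U) (c y : B → k) (q : B) (hq : q ∉ b) :
    ph S ψ χ (insert q b) x c y = ph S ψ χ b x c y *
      (χ (S.lam q (c q)) * ψ (y q * S.R b x c q) *
        ∏ q' ∈ b, ψ (y q' * (c q * S.a q' q + c q' * algebraMap (ZMod p) k (S.kap q' q)))) := by
  unfold ph
  rw [sum_insert hq, prod_insert hq, R_ins_self S b x c q hq]
  have h1 : ∏ q' ∈ b, ψ (y q' * S.R (insert q b) x c q') = (∏ q' ∈ b, ψ (y q' * S.R b x c q')) *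
      ∏ q' ∈ b, ψ (y q' * (c q * S.a q' q + c q' * algebraMap (ZMod p) k (S.kap q' q))) := by
    rw [← prod_mul_distrib]
    refine prod_congr rfl fun q' hq' => ?_
    rw [R_ins S b x c q q' hq hq', mul_add, AddChar.map_add_eq_mul]
  have h2 : χ (S.lam₀ x + (S.lam q (c q) + ∑ q' ∈ b, S.lam q' (c q'))) =
      χ (S.lam₀ x + ∑ q' ∈ b, S.lam q' (c q')) * χ (S.lam q (c q)) := by
    rw [← AddChar.map_add_eq_mul]
    congr 1
    abel
  rw [h1, h2]
  ring

/-- the part at `q` with label `(u, v)` against the rest `r` with labels `c, y` -/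
noncomputable def AA [Algebra (ZMod p) k] (ψ : AddChar k ℂ) (χ : AddChar Λ ℂ) (r : Finset B)
    (x : U) (c y : B → k) (u v : k) (q : B) : ℂ :=
  χ (S.lam q u) * ψ (v * (S.res q x + ∑ q' ∈ r, c q' * S.a q q' +
    u * (S.dg q + ∑ q' ∈ r, algebraMap (ZMod p) k (S.kap q q')))) *
    ∏ q' ∈ r, ψ (y q' * (u * S.a q' q + c q' * algebraMap (ZMod p) k (S.kap q' q)))

/-- the bilinear phase -/
noncomputable def Ph [Algebra (ZMod p) k] (ψ : AddChar k ℂ) (t s c y : k) (q q₁ : B) : ℂ :=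
  ψ (s * (c * S.a q q₁ + t * algebraMap (ZMod p) k (S.kap q q₁)) +
        y * (t * S.a q₁ q + c * algebraMap (ZMod p) k (S.kap q₁ q)))

lemma AA_norm [Algebra (ZMod p) k] [Finite k] [Finite Λ] (ψ : AddChar k ℂ) (χ : AddChar Λ ℂ)
    (r : Finset B) (x : U) (c y : B → k) (u v : k) (q : B) :
    ‖AA S ψ χ r x c y u v q‖ = 1 := by
  unfold AA
  rw [norm_mul, norm_mul, norm_prod, AddChar.norm_apply, AddChar.norm_apply,
    prod_eq_one fun q' _ => AddChar.norm_apply _ _]
  norm_num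

lemma ph_norm [Algebra (ZMod p) k] [Finite k] [Finite Λ] (ψ : AddChar k ℂ) (χ : AddChar Λ ℂ)
    (r : Finset B) (x : U) (c y : B → k) :
    ‖ph S ψ χ r x c y‖ = 1 := by
  unfold ph
  rw [norm_mul, norm_prod, AddChar.norm_apply, prod_eq_one fun q' _ => AddChar.norm_apply _ _]
  norm_num

open Classical in
/-- the label function `c⁰` -/
noncomputable def c0 (j : ℕ) (c : B → k) : B → k :=
  fun q' ↦ if S.spl q' ∧ S.bl q' < j then c q' else 0

open Classical in
/-- the label function `y⁰` -/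
noncomputable def y0 (E j : ℕ) (y : B → k) : B → k :=
  fun q' ↦ if S.spl q' ∧ S.bl q' ≠ j ∧ S.bl q' ≤ th E j then y q' else 0

lemma cutc_self (j : ℕ) (q : B) (t : k) (c : B → k) : cutc S j q t c q = t := by
  simp [cutc]

lemma cutc_ne (j : ℕ) (q q' : B) (t : k) (c : B → k) (h : q' ≠ q) :
    cutc S j q t c q' = c0 S j c q' := by
  simp [cutc, c0, h]

lemma cuty_self (E j : ℕ) (q : B) (s : k) (y : B → k) : cuty S E j q s y q = s := by
  simp [cuty]

lemma cuty_ne (E j : ℕ) (q q' : B) (s : k) (y : B → k) (h : q' ≠ q) :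
    cuty S E j q s y q' = y0 S E j y q' := by
  simp [cuty, y0, h]

lemma Nz_iff (E j : ℕ) (c y : B → k) (q' : B) :
    Nz S E j c y q' ↔ (c0 S j c q' ≠ 0 ∨ y0 S E j y q' ≠ 0) := by
  classical
  unfold Nz c0 y0
  by_cases h1 : S.spl q'
  · by_cases h2 : S.bl q' < j
    · by_cases h3 : S.bl q' ≠ j ∧ S.bl q' ≤ th E j
      · simp only [h1, h2, h3, true_and, and_self, if_true, ne_eq, not_false_eq_true]
      · have h4 : ¬ (S.bl q' ≠ j ∧ S.bl q' ≤ th E j ∧ y q' ≠ 0) := fun h => h3 ⟨h.1, h.2.1⟩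
        simp only [h1, h2, h3, h4, true_and, and_self, if_true, or_false, if_false, ne_eq,
          not_true]
    · by_cases h3 : S.bl q' ≠ j ∧ S.bl q' ≤ th E j
      · simp only [h1, h2, h3, true_and, and_self, if_true, false_and, false_or, if_false, ne_eq,
          not_true, not_false_eq_true]
      · have h4 : ¬ (S.bl q' ≠ j ∧ S.bl q' ≤ th E j ∧ y q' ≠ 0) := fun h => h3 ⟨h.1, h.2.1⟩
        simp only [h1, h2, h3, h4, true_and, or_false, if_false, false_and, ne_eq, not_true]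
  · simp [h1]

open Classical in
lemma ph_two [Algebra (ZMod p) k] (ψ : AddChar k ℂ) (χ : AddChar Λ ℂ) (E j : ℕ) (r : Finset B)
    (x : U) (t s : k) (c y : B → k) (q q₁ : B) (hq : q ∉ r) (hq₁ : q₁ ∉ insert q r) :
    ph S ψ χ (insert q₁ (insert q r)) x (cutc S j q t c) (cuty S E j q s y) =
      ph S ψ χ r x (c0 S j c) (y0 S E j y) *
        AA S ψ χ r x (c0 S j c) (y0 S E j y) t s q *
        AA S ψ χ r x (c0 S j c) (y0 S E j y) (c0 S j c q₁) (y0 S E j y q₁) q₁ *
        Ph S ψ t s (c0 S j c q₁) (y0 S E j y q₁) q q₁ := by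
  have hne : q₁ ≠ q := fun h => hq₁ (h ▸ mem_insert_self _ _)
  have hq₁r : q₁ ∉ r := fun h => hq₁ (mem_insert_of_mem h)
  have hr : ∀ q' ∈ r, cutc S j q t c q' = c0 S j c q' := fun q' hq' =>
    cutc_ne S j q q' t c (by rintro rfl; exact hq hq')
  have hr' : ∀ q' ∈ r, cuty S E j q s y q' = y0 S E j y q' := fun q' hq' =>
    cuty_ne S E j q q' s y (by rintro rfl; exact hq hq')
  rw [ph_insert S ψ χ (insert q r) x _ _ q₁ hq₁, ph_insert S ψ χ r x _ _ q hq,
    ph_congr S ψ χ r x _ _ _ _ hr hr', cutc_self, cuty_self, cutc_ne S j q q₁ t c hne,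
    cuty_ne S E j q q₁ s y hne, prod_insert hq, cutc_self, cuty_self]
  have e1 : ∏ q' ∈ r, ψ (cuty S E j q s y q' * (t * S.a q' q +
      cutc S j q t c q' * algebraMap (ZMod p) k (S.kap q' q))) =
      ∏ q' ∈ r, ψ (y0 S E j y q' * (t * S.a q' q +
      c0 S j c q' * algebraMap (ZMod p) k (S.kap q' q))) :=
    prod_congr rfl fun q' hq' => by rw [hr q' hq', hr' q' hq']
  have e2 : ∏ q' ∈ r, ψ (cuty S E j q s y q' * (c0 S j c q₁ * S.a q' q₁ +
      cutc S j q t c q' * algebraMap (ZMod p) k (S.kap q' q₁))) =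
      ∏ q' ∈ r, ψ (y0 S E j y q' * (c0 S j c q₁ * S.a q' q₁ +
      c0 S j c q' * algebraMap (ZMod p) k (S.kap q' q₁))) :=
    prod_congr rfl fun q' hq' => by rw [hr q' hq', hr' q' hq']
  have e3 : S.R r x (cutc S j q t c) q = S.res q x + ∑ q' ∈ r, c0 S j c q' * S.a q q' +
      t * (S.dg q + ∑ q' ∈ r, algebraMap (ZMod p) k (S.kap q q')) := by
    unfold Sys.R
    rw [erase_eq_of_notMem hq, cutc_self]
    congr 2
    exact sum_congr rfl fun q' hq' => by rw [hr q' hq']
  have e4 : S.R (insert q r) x (cutc S j q t c) q₁ =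
      (S.res q₁ x + ∑ q' ∈ r, c0 S j c q' * S.a q₁ q' +
      c0 S j c q₁ * (S.dg q₁ + ∑ q' ∈ r, algebraMap (ZMod p) k (S.kap q₁ q'))) +
      (t * S.a q₁ q + c0 S j c q₁ * algebraMap (ZMod p) k (S.kap q₁ q)) := by
    unfold Sys.R
    rw [erase_eq_of_notMem hq₁, cutc_ne S j q q₁ t c hne, sum_insert hq, sum_insert hq, cutc_self,
      sum_congr rfl fun q' hq' => by rw [hr q' hq']]
    ring
  rw [e1, e2, e3, e4, mul_add (y0 S E j y q₁), AddChar.map_add_eq_mul]
  unfold AA Ph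
  rw [AddChar.map_add_eq_mul]
  ring

/-- the conditions on `r` -/
def cR (G : B → Prop) (T E i j : ℕ) (c y : B → k) (r : Finset B) : Prop :=
  Set.InjOn S.bs (r : Set B) ∧ Ok S G T r ∧ (∀ q' ∈ r, S.bl q' ≠ j ∧ S.bl q' ≠ i) ∧
    ∀ q' ∈ r, T ≤ S.bl q' → Nz S E j c y q' → S.bl q' < i

open Classical in
/-- the condition on the norms -/
def sm (E j : ℕ) (r : Finset B) (P₁ : B) : Prop :=
  ∀ D ⊆ insert P₁ r, (∀ q' ∈ D, S.bl q' ≤ th E j) → S.nm D < 2 ^ tb E j

open Classical in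
lemma cond_iff (G : B → Prop) (T E i j : ℕ) (hTi : T ≤ i) (hTj : T ≤ j) (hij : i ≠ j)
    (c y : B → k) (r : Finset B) (q P₁ : B) (hq : q ∉ r) (hP : P₁ ∉ insert q r) :
    ((S.Fam (insert P₁ (insert q r)) ∧ Ok S G T (insert P₁ (insert q r))) ∧
      (S.Wt E (insert P₁ (insert q r)) q ∧ S.bl q = j) ∧ S.bl P₁ = i ∧
      Tp S T E (insert P₁ (insert q r)) q c y P₁) ↔
    cR S G T E i j c y r ∧ (S.bl q = j ∧ S.spl q ∧ G q) ∧ (S.bl P₁ = i ∧ S.spl P₁ ∧ G P₁) ∧
      Nz S E j c y P₁ ∧ sm S E j r P₁ ∧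
      S.cls P₁ + (S.cls q + ∑ q' ∈ r, S.cls q') = S.cl₀ := by
  have hne : P₁ ≠ q := fun h => hP (h ▸ mem_insert_self _ _)
  have hPr : P₁ ∉ r := fun h => hP (mem_insert_of_mem h)
  have mq : q ∈ insert P₁ (insert q r) := mem_insert_of_mem (mem_insert_self _ _)
  have mP : P₁ ∈ insert P₁ (insert q r) := mem_insert_self _ _
  have mr : ∀ q' ∈ r, q' ∈ insert P₁ (insert q r) := fun q' hq' =>
    mem_insert_of_mem (mem_insert_of_mem hq')
  constructor
  · rintro ⟨⟨⟨f1, f2⟩, o1, o2⟩, ⟨⟨-, w2, w3, w4⟩, hj⟩, hi, ⟨-, -, t3, t4, t5⟩⟩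
    rw [sum_insert hP, sum_insert hq] at f2
    rw [hj] at t4
    refine ⟨⟨?_, ⟨?_, ?_⟩, ?_, ?_⟩, ⟨hj, w2, ?_⟩, ⟨hi, t4.1, ?_⟩, t4, ?_, f2⟩
    · refine f1.mono ?_
      intro z hz
      simp only [coe_insert, Set.mem_insert_iff]
      exact Or.inr (Or.inr hz)
    · exact fun a ha b hb hab => o1 a (mr a ha) b (mr b hb) hab
    · exact fun a ha => o2 a (mr a ha)
    · intro q' hq'
      constructor
      · intro h
        have hne' : q' ≠ q := by rintro rfl; exact hq hq'
        have := o1 q' (mr q' hq') q mq hne' (h.trans hj.symm)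
        omega
      · intro h
        have hne' : q' ≠ P₁ := by rintro rfl; exact hPr hq'
        have := o1 q' (mr q' hq') P₁ mP hne' (h.trans hi.symm)
        omega
    · intro q' hq' hT hN
      rw [← hj] at hN
      rw [← hi]
      exact t5 q' (mr q' hq') (by rintro rfl; exact hq hq') (by rintro rfl; exact hPr hq') hT hN
    · exact o2 q mq (by omega)
    · exact o2 P₁ mP (by omega)
    · intro D hD hb
      rw [← hj] at hb ⊢
      refine w4 D (hD.trans (insert_subset_insert _ (subset_insert _ _))) ?_ hb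
      intro h
      rcases mem_insert.1 (hD h) with h1 | h1
      · exact hne h1.symm
      · exact hq h1
  · rintro ⟨⟨c1, ⟨c2, c3⟩, c4, c5⟩, ⟨hj, w2, gq⟩, ⟨hi, w2', gP⟩, hN, hsm, f2⟩
    have hNbl : ∀ a b, S.bs a = S.bs b → S.bl a = S.bl b := fun a b h => by
      unfold Sys.bl
      rw [S.bsN a b h]
    have hqr : ∀ q' ∈ r, S.bs q ≠ S.bs q' := fun q' hq' h =>
      (c4 q' hq').1 ((hNbl q q' h).symm.trans hj)
    have hPr' : ∀ q' ∈ r, S.bs P₁ ≠ S.bs q' := fun q' hq' h =>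
      (c4 q' hq').2 ((hNbl P₁ q' h).symm.trans hi)
    have hPq : S.bs P₁ ≠ S.bs q := fun h => hij (hi.symm.trans ((hNbl P₁ q h).trans hj))
    refine ⟨⟨⟨?_, ?_⟩, ⟨?_, ?_⟩⟩, ⟨⟨mq, w2, ?_, ?_⟩, hj⟩, hi,
      ⟨mP, hne, by omega, by rw [hj]; exact hN, ?_⟩⟩
    · rw [coe_insert, coe_insert, Set.injOn_insert (by
        simp only [Set.mem_insert_iff, not_or]
        exact ⟨hne, hPr⟩), Set.injOn_insert hq]
      refine ⟨⟨c1, ?_⟩, ?_⟩
      · rintro ⟨q', hq', h⟩
        exact hqr q' hq' h.symm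
      · rintro ⟨q', hq', h⟩
        rcases hq' with rfl | hq'
        · exact hPq h.symm
        · exact hPr' q' hq' h.symm
    · rw [sum_insert hP, sum_insert hq]
      exact f2
    · intro a ha b hb hab hbl
      simp only [mem_insert] at ha hb
      rcases ha with ha | ha | ha
      · rcases hb with hb | hb | hb
        · exact absurd (ha.trans hb.symm) hab
        · rw [ha, hb] at hbl
          exact absurd (hi.symm.trans (hbl.trans hj)) hij
        · rw [ha] at hbl
          exact absurd (hbl.symm.trans hi) (c4 b hb).2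
      · rcases hb with hb | hb | hb
        · rw [ha, hb] at hbl
          exact absurd (hi.symm.trans (hbl.symm.trans hj)) hij
        · exact absurd (ha.trans hb.symm) hab
        · rw [ha] at hbl
          exact absurd (hbl.symm.trans hj) (c4 b hb).1
      · rcases hb with hb | hb | hb
        · rw [hb] at hbl
          exact absurd (hbl.trans hi) (c4 a ha).2
        · rw [hb] at hbl
          exact absurd (hbl.trans hj) (c4 a ha).1
        · exact c2 a ha b hb hab hbl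
    · intro a ha hT
      rcases mem_insert.1 ha with rfl | ha
      · exact gP
      rcases mem_insert.1 ha with rfl | ha
      · exact gq
      · exact c3 a ha hT
    · intro q' hq' hne' hs
      rw [hj]
      rcases mem_insert.1 hq' with rfl | hq'
      · rw [hi]; exact hij
      rcases mem_insert.1 hq' with rfl | hq'
      · exact absurd rfl hne'
      · exact (c4 q' hq').1
    · intro D hD hqD hb
      rw [hj] at hb ⊢
      refine hsm D ?_ hb
      intro z hz
      rcases mem_insert.1 (hD hz) with h1 | h1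
      · exact mem_insert.2 (Or.inl h1)
      rcases mem_insert.1 h1 with h1 | h1
      · exact absurd (h1 ▸ hz) hqD
      · exact mem_insert_of_mem h1
    · intro q' hq' h1 h2 hT hN'
      rw [hj] at hN'
      rw [hi]
      rcases mem_insert.1 hq' with h3 | h3
      · exact absurd h3 h2
      rcases mem_insert.1 h3 with h3 | h3
      · exact absurd h3 h1
      · exact c5 q' h3 hT hN'

/-- the exponent -/
def exq (i j : ℕ) : ℕ := if i < j then 1 else 0

lemma exq_le (i j : ℕ) : exq i j ≤ 1 := by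
  unfold exq
  split_ifs <;> omega

open Classical in
lemma rs_card (i j : ℕ) (r : Finset B) (q P₁ : B) (hq : q ∉ r) (hP : P₁ ∉ insert q r)
    (hj : S.bl q = j) (hi : S.bl P₁ = i) (hs : S.spl P₁) :
    (S.rs (insert P₁ (insert q r)) q).card = (rsj S j r).card + exq i j := by
  have hne : P₁ ≠ q := fun h => hP (h ▸ mem_insert_self _ _)
  have hPr : P₁ ∉ r := fun h => hP (mem_insert_of_mem h)
  unfold Sys.rs rsj exq
  rw [erase_insert_of_ne hne, erase_insert hq, filter_insert, hj, hi]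
  by_cases h : i < j
  · rw [if_pos ⟨hs, h⟩, if_pos h, card_insert_of_notMem]
    exact fun h' => hPr (mem_filter.1 h').1
  · rw [if_neg (fun h' => h h'.2), if_neg h, add_zero]

open Classical in
/-- the summand for fixed `x, t, χ, c, y` -/
noncomputable def gg [Algebra (ZMod p) k] [Fintype k]
    (ψ : AddChar k ℂ) (G : B → Prop) (T E i j : ℕ) (s : k) (X : ℝ)
    (x : U) (t : k) (χ : AddChar Λ ℂ) (c y : B → k) (b : Finset B) (q P₁ : B) : ℂ :=
  if (S.Fam b ∧ Ok S G T b) ∧ (S.Wt E b q ∧ S.bl q = j) ∧ S.bl P₁ = i ∧ Tp S T E b q c y P₁ then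
    (Fintype.card k : ℂ) ^ (S.rs b q).card *
      ph S ψ χ b x (cutc S j q t c) (cuty S E j q s y) * (Real.exp (-(S.nm b / X)) : ℂ)
  else 0

open Classical in
/-- the coefficient of `P₁` -/
noncomputable def al [Algebra (ZMod p) k]
    (ψ : AddChar k ℂ) (E j : ℕ) (x : U) (χ : AddChar Λ ℂ) (c y : B → k) (P r : Finset B) (γ : C)
    (z : k × k) (P₁ : B) : ℂ :=
  if P₁ ∈ P \ r ∧ S.cls P₁ = S.cl₀ - γ - ∑ q' ∈ r, S.cls q' ∧ sm S E j r P₁ ∧
      (c0 S j c P₁, y0 S E j y P₁) = z then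
    AA S ψ χ r x (c0 S j c) (y0 S E j y) z.1 z.2 P₁
  else 0

open Classical in
/-- the coefficient of `q` -/
noncomputable def be [Algebra (ZMod p) k]
    (ψ : AddChar k ℂ) (E j : ℕ) (s : k)
    (x : U) (t : k) (χ : AddChar Λ ℂ) (c y : B → k) (P r : Finset B) (γ : C) (q : B) : ℂ :=
  if q ∈ P \ r ∧ S.cls q = γ then
    ph S ψ χ r x (c0 S j c) (y0 S E j y) * AA S ψ χ r x (c0 S j c) (y0 S E j y) t s q
  else 0

lemma al_norm [Algebra (ZMod p) k] [Finite k] [Finite Λ]
    (ψ : AddChar k ℂ) (E j : ℕ) (x : U) (χ : AddChar Λ ℂ) (c y : B → k) (P r : Finset B) (γ : C)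
    (z : k × k) (P₁ : B) :
    ‖al S ψ E j x χ c y P r γ z P₁‖ ≤ 1 := by
  unfold al
  split_ifs
  · rw [AA_norm]
  · simp

lemma be_norm [Algebra (ZMod p) k] [Finite k] [Finite Λ]
    (ψ : AddChar k ℂ) (E j : ℕ) (s : k)
    (x : U) (t : k) (χ : AddChar Λ ℂ) (c y : B → k) (P r : Finset B) (γ : C) (q : B) :
    ‖be S ψ E j s x t χ c y P r γ q‖ ≤ 1 := by
  unfold be
  split_ifs
  · rw [norm_mul, AA_norm, ph_norm]
    norm_num
  · simp

open Classical in
lemma gg_eq [Algebra (ZMod p) k] [Fintype k] [Fintype C]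
    (ψ : AddChar k ℂ) (G : B → Prop) (T E i j : ℕ) (hTi : T ≤ i) (hTj : T ≤ j) (hij : i ≠ j)
    (s : k) (X : ℝ) (hX : 0 < X)
    (x : U) (t : k) (χ : AddChar Λ ℂ) (c y : B → k) (P r : Finset B)
    (hcR : cR S G T E i j c y r) (q P₁ : B)
    (hq : q ∈ P \ r) (hP : P₁ ∈ P \ insert q r) :
    gg S ψ G T E i j s X x t χ c y (insert P₁ (insert q r)) q P₁ =
      if q ∈ (S.blk j).filter (fun q => S.spl q ∧ G q) then
        (if P₁ ∈ (S.blk i).filter (fun q => S.spl q ∧ G q) then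
          ∑ γ : C, ∑ z ∈ (univ : Finset (k × k)).erase 0,
            (Fintype.card k : ℂ) ^ ((rsj S j r).card + exq i j) *
            (al S ψ E j x χ c y P r γ z P₁ * be S ψ E j s x t χ c y P r γ q *
              Ph S ψ t s z.1 z.2 q P₁ *
              (Real.exp (-((S.N q : ℝ) * S.N P₁ / (X / S.nm r))) : ℂ))
        else 0) else 0 := by
  have hqr : q ∉ r := (mem_sdiff.1 hq).2
  have hP' := mem_sdiff.1 hP
  have hPr : P₁ ∈ P \ r := mem_sdiff.2 ⟨hP'.1, fun h => hP'.2 (mem_insert_of_mem h)⟩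
  unfold gg
  rw [if_congr (cond_iff S G T E i j hTi hTj hij c y r q P₁ hqr hP'.2) rfl rfl]
  simp only [mem_filter, mem_blk]
  by_cases h1 : S.bl q = j ∧ S.spl q ∧ G q
  · rw [if_pos h1]
    by_cases h2 : S.bl P₁ = i ∧ S.spl P₁ ∧ G P₁
    · rw [if_pos h2]
      rw [sum_eq_single (S.cls q)]
      · by_cases h3 : Nz S E j c y P₁ ∧ sm S E j r P₁ ∧
            S.cls P₁ + (S.cls q + ∑ q' ∈ r, S.cls q') = S.cl₀
        · have h4 : S.cls P₁ = S.cl₀ - S.cls q - ∑ q' ∈ r, S.cls q' := by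
            rw [← h3.2.2]
            abel
          rw [if_pos ⟨hcR, h1, h2, h3⟩]
          have hz : (c0 S j c P₁, y0 S E j y P₁) ∈ (univ : Finset (k × k)).erase 0 := by
            rw [mem_erase]
            refine ⟨?_, mem_univ _⟩
            intro h
            rw [Prod.mk_eq_zero] at h
            rcases (Nz_iff S E j c y P₁).1 h3.1 with h5 | h5
            · exact h5 h.1
            · exact h5 h.2
          rw [sum_eq_single_of_mem _ hz]
          · unfold al be
            rw [if_pos (⟨hq, rfl⟩ : q ∈ P \ r ∧ S.cls q = S.cls q), if_pos ⟨hPr, h4, h3.2.1, rfl⟩]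
            rw [ph_two S ψ χ E j r x t s c y q P₁ hqr hP'.2,
              rs_card S i j r q P₁ hqr hP'.2 h1.1 h2.1 h2.2.1]
            have h5 : S.nm (insert P₁ (insert q r)) = S.N P₁ * (S.N q * S.nm r) := by
              unfold Sys.nm
              rw [prod_insert hP'.2, prod_insert hqr]
            have h6 : ((S.nm (insert P₁ (insert q r)) : ℕ) : ℝ) / X =
                (S.N q : ℝ) * S.N P₁ / (X / S.nm r) := by
              have h7 : (S.nm r : ℝ) ≠ 0 := by exact_mod_cast (nm_pos S r).ne'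
              rw [h5]
              push_cast
              field_simp
            rw [h6]
            ring
          · intro z _ hz'
            unfold al
            rw [if_neg (fun h => hz' h.2.2.2.symm)]
            ring
        · rw [if_neg (fun h => h3 h.2.2.2), sum_eq_zero]
          intro z hz
          unfold al
          rw [if_neg]
          · ring
          · rintro ⟨-, h4, h5, h6⟩
            refine h3 ⟨?_, h5, ?_⟩
            · rw [Nz_iff]
              by_contra h7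
              rw [not_or, not_not, not_not] at h7
              rw [h7.1, h7.2] at h6
              exact (mem_erase.1 hz).1 h6.symm
            · rw [h4]
              abel
      · intro γ _ hγ
        refine sum_eq_zero fun z _ => ?_
        unfold be
        rw [if_neg (fun h => hγ h.2.symm)]
        ring
      · intro h
        exact absurd (mem_univ _) h
    · rw [if_neg h2, if_neg]
      rintro ⟨-, -, h3, -⟩
      exact h2 h3
  · rw [if_neg h1, if_neg]
    rintro ⟨-, h3, -⟩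
    exact h1 h3

open Classical in
lemma inner_eq [Algebra (ZMod p) k] [Fintype k] [Fintype C]
    (ψ : AddChar k ℂ) (G : B → Prop) (T E i j : ℕ) (hTi : T ≤ i) (hTj : T ≤ j) (hij : i ≠ j)
    (s : k) (X : ℝ) (hX : 0 < X)
    (x : U) (t : k) (χ : AddChar Λ ℂ) (c y : B → k) (P r : Finset B)
    (hcR : cR S G T E i j c y r) :
    ∑ q ∈ P \ r, ∑ P₁ ∈ P \ insert q r,
      gg S ψ G T E i j s X x t χ c y (insert P₁ (insert q r)) q P₁ =
    ∑ γ : C, ∑ z ∈ (univ : Finset (k × k)).erase 0,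
      (Fintype.card k : ℂ) ^ ((rsj S j r).card + exq i j) *
      ∑ P₁ ∈ S.blk i with (S.spl P₁ ∧ G P₁), ∑ q ∈ S.blk j with (S.spl q ∧ G q),
        al S ψ E j x χ c y P r γ z P₁ * be S ψ E j s x t χ c y P r γ q *
              Ph S ψ t s z.1 z.2 q P₁ *
              (Real.exp (-((S.N q : ℝ) * S.N P₁ / (X / S.nm r))) : ℂ) := by
  set h : B → B → ℂ := fun q P₁ => ∑ γ : C, ∑ z ∈ (univ : Finset (k × k)).erase 0,
            (Fintype.card k : ℂ) ^ ((rsj S j r).card + exq i j) *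
            (al S ψ E j x χ c y P r γ z P₁ * be S ψ E j s x t χ c y P r γ q *
              Ph S ψ t s z.1 z.2 q P₁ *
              (Real.exp (-((S.N q : ℝ) * S.N P₁ / (X / S.nm r))) : ℂ)) with hh
  have hq0 : ∀ q P₁, q ∉ P \ r → h q P₁ = 0 := by
    intro q P₁ hq
    rw [hh]
    refine sum_eq_zero fun γ _ => sum_eq_zero fun z _ => ?_
    unfold be
    rw [if_neg (fun h => hq h.1)]
    ring
  have hP0 : ∀ q P₁, P₁ ∉ P \ r → h q P₁ = 0 := by
    intro q P₁ hq
    rw [hh]
    refine sum_eq_zero fun γ _ => sum_eq_zero fun z _ => ?_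
    unfold al
    rw [if_neg (fun h => hq h.1)]
    ring
  have e1 : ∑ q ∈ P \ r, ∑ P₁ ∈ P \ insert q r,
      gg S ψ G T E i j s X x t χ c y (insert P₁ (insert q r)) q P₁ =
      ∑ q ∈ P \ r, if q ∈ (S.blk j).filter (fun q => S.spl q ∧ G q) then
        ∑ P₁ ∈ P \ r, (if P₁ ∈ (S.blk i).filter (fun q => S.spl q ∧ G q) then h q P₁ else 0)
        else 0 := by
    refine sum_congr rfl fun q hq => ?_
    have e2 : ∑ P₁ ∈ P \ insert q r,
        gg S ψ G T E i j s X x t χ c y (insert P₁ (insert q r)) q P₁ =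
        ∑ P₁ ∈ P \ insert q r, (if q ∈ (S.blk j).filter (fun q => S.spl q ∧ G q) then
          (if P₁ ∈ (S.blk i).filter (fun q => S.spl q ∧ G q) then h q P₁ else 0) else 0) :=
      sum_congr rfl fun P₁ hP => gg_eq S ψ G T E i j hTi hTj hij s X hX x t χ c y P r hcR q P₁
        hq hP
    rw [e2]
    split_ifs with h1
    · refine sum_subset (sdiff_subset_sdiff subset_rfl (subset_insert _ _)) ?_
      intro P₁ h2 h3
      have h4 : P₁ = q := by
        by_contra h4
        refine h3 (mem_sdiff.2 ⟨(mem_sdiff.1 h2).1, fun h5 => ?_⟩)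
        rcases mem_insert.1 h5 with h6 | h6
        · exact h4 h6
        · exact (mem_sdiff.1 h2).2 h6
      rw [if_neg]
      rw [h4]
      intro h5
      exact hij (((mem_blk S i q).1 (mem_filter.1 h5).1).symm.trans
        ((mem_blk S j q).1 (mem_filter.1 h1).1))
    · simp
  rw [e1, sum_swap]
  have e3 : ∀ q ∈ (S.blk j).filter (fun q => S.spl q ∧ G q),
      (if q ∈ P \ r then ∑ P₁ ∈ P \ r,
        (if P₁ ∈ (S.blk i).filter (fun q => S.spl q ∧ G q) then h q P₁ else 0) else 0) =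
      ∑ P₁ ∈ (S.blk i).filter (fun q => S.spl q ∧ G q), h q P₁ := by
    intro q _
    split_ifs with h1
    · rw [sum_swap]
      refine sum_congr rfl fun P₁ _ => ?_
      split_ifs with h2
      · rfl
      · exact (hP0 q P₁ h2).symm
    · exact (sum_eq_zero fun P₁ _ => hq0 q P₁ h1).symm
  rw [sum_congr rfl e3, sum_comm]
  rw [hh]
  simp only [mul_sum]
  calc _ = ∑ P₁ ∈ (S.blk i).filter (fun q => S.spl q ∧ G q), ∑ γ : C,
      ∑ z ∈ (univ : Finset (k × k)).erase 0, ∑ q ∈ (S.blk j).filter (fun q => S.spl q ∧ G q),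
            (Fintype.card k : ℂ) ^ ((rsj S j r).card + exq i j) *
            (al S ψ E j x χ c y P r γ z P₁ * be S ψ E j s x t χ c y P r γ q *
              Ph S ψ t s z.1 z.2 q P₁ *
              (Real.exp (-((S.N q : ℝ) * S.N P₁ / (X / S.nm r))) : ℂ)) := by
        refine sum_congr rfl fun P₁ _ => ?_
        rw [sum_comm]
        exact sum_congr rfl fun γ _ => sum_comm
    _ = _ := by
      rw [sum_comm]
      exact sum_congr rfl fun γ _ => sum_comm

open Classical in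
lemma inner_le [Algebra (ZMod p) k] [Fintype k] [Fintype C] [Finite Λ]
    (ψ : AddChar k ℂ) (G : B → Prop) (g : ℝ → ℝ) (K : ℕ) (hH : Hyp₂ S ψ G g K)
    (T E i j : ℕ) (hi : 1 ≤ i) (hj : 1 ≤ j) (hTi : T ≤ i) (hTj : T ≤ j) (hij : i ≠ j)
    (s : k) (hs : s ≠ 0) (X : ℝ) (hX : 0 < X)
    (x : U) (t : k) (ht : t ≠ 0) (χ : AddChar Λ ℂ) (c y : B → k) (P r : Finset B) :
    ‖∑ q ∈ P \ r, ∑ P₁ ∈ P \ insert q r,
      gg S ψ G T E i j s X x t χ c y (insert P₁ (insert q r)) q P₁‖ ≤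
    Fintype.card C * ((Fintype.card k : ℝ) ^ 3 * ((Fintype.card k : ℝ) ^ r.card *
      (K * 2 ^ (i + j) * (i + j) ^ K * (2 : ℝ) ^ (-(min i j : ℝ) / K) *
        Real.exp (-(S.nm r / (2 * X / 2 ^ (i + j))))))) := by
  have hnm : (0 : ℝ) < S.nm r := by exact_mod_cast nm_pos S r
  by_cases hcR : cR S G T E i j c y r
  · rw [inner_eq S ψ G T E i j hTi hTj hij s X hX x t χ c y P r hcR]
    refine (norm_sum_le _ _).trans ?_
    have h4 : (1 : ℝ) ≤ Fintype.card k := by exact_mod_cast Fintype.card_pos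
    have h1 : ∀ γ ∈ (univ : Finset C), ‖∑ z ∈ (univ : Finset (k × k)).erase 0,
      (Fintype.card k : ℂ) ^ ((rsj S j r).card + exq i j) *
      ∑ P₁ ∈ S.blk i with (S.spl P₁ ∧ G P₁), ∑ q ∈ S.blk j with (S.spl q ∧ G q),
        al S ψ E j x χ c y P r γ z P₁ * be S ψ E j s x t χ c y P r γ q *
              Ph S ψ t s z.1 z.2 q P₁ *
              (Real.exp (-((S.N q : ℝ) * S.N P₁ / (X / S.nm r))) : ℂ)‖ ≤
        (Fintype.card k : ℝ) ^ 3 * ((Fintype.card k : ℝ) ^ r.card *
      (K * 2 ^ (i + j) * (i + j) ^ K * (2 : ℝ) ^ (-(min i j : ℝ) / K) *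
        Real.exp (-(S.nm r / (2 * X / 2 ^ (i + j)))))) := by
      intro γ _
      refine (norm_sum_le _ _).trans ?_
      have h1' : ∀ z ∈ (univ : Finset (k × k)).erase 0,
        ‖(Fintype.card k : ℂ) ^ ((rsj S j r).card + exq i j) *
        ∑ P₁ ∈ S.blk i with (S.spl P₁ ∧ G P₁), ∑ q ∈ S.blk j with (S.spl q ∧ G q),
        al S ψ E j x χ c y P r γ z P₁ * be S ψ E j s x t χ c y P r γ q *
              Ph S ψ t s z.1 z.2 q P₁ *
              (Real.exp (-((S.N q : ℝ) * S.N P₁ / (X / S.nm r))) : ℂ)‖ ≤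
          Fintype.card k * ((Fintype.card k : ℝ) ^ r.card *
          (K * 2 ^ (i + j) * (i + j) ^ K * (2 : ℝ) ^ (-(min i j : ℝ) / K) *
          Real.exp (-(S.nm r / (2 * X / 2 ^ (i + j)))))) := by
        intro z hz
        rw [norm_mul, norm_pow, Complex.norm_natCast]
        have hz' : z.1 ≠ 0 ∨ z.2 ≠ 0 := by
          by_contra h
          rw [not_or, not_not, not_not] at h
          exact (mem_erase.1 hz).1 (Prod.ext h.1 h.2)
        have h2 := hH.bl₃ i j t s z.1 z.2 (al S ψ E j x χ c y P r γ z)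
          (be S ψ E j s x t χ c y P r γ)
          (X / S.nm r) hi hj hij ht hs hz' (by positivity) (al_norm S ψ E j x χ c y P r γ z)
          (be_norm S ψ E j s x t χ c y P r γ)
        have h3 : (2 : ℝ) ^ (i + j) / (2 * (X / S.nm r)) = S.nm r / (2 * X / 2 ^ (i + j)) := by
          field_simp
        rw [h3] at h2
        have h5 : (rsj S j r).card ≤ r.card := card_filter_le _ _
        have h6 := exq_le i j
        rw [← mul_assoc, ← pow_succ']
        unfold Ph
        exact mul_le_mul (pow_le_pow_right₀ h4 (by omega)) h2 (norm_nonneg _) (by positivity)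
      refine (sum_le_sum h1').trans ?_
      rw [sum_const, nsmul_eq_mul, card_erase_of_mem (mem_univ _), card_univ, Fintype.card_prod]
      have h7 : ((Fintype.card k * Fintype.card k - 1 : ℕ) : ℝ) ≤
          (Fintype.card k : ℝ) * Fintype.card k := by
        exact_mod_cast Nat.sub_le _ _
      refine (mul_le_mul_of_nonneg_right h7 (by positivity)).trans (le_of_eq ?_)
      ring
    refine (sum_le_sum h1).trans ?_
    rw [sum_const, nsmul_eq_mul, card_univ]
  · have h1 : ∑ q ∈ P \ r, ∑ P₁ ∈ P \ insert q r,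
        gg S ψ G T E i j s X x t χ c y (insert P₁ (insert q r)) q P₁ = 0 := by
      refine sum_eq_zero fun q hq => sum_eq_zero fun P₁ hP => ?_
      unfold gg
      rw [if_neg]
      rw [cond_iff S G T E i j hTi hTj hij c y r q P₁ (mem_sdiff.1 hq).2 (mem_sdiff.1 hP).2]
      exact fun h => hcR h.1
    rw [h1, norm_zero]
    positivity

open Classical in
lemma fixed_le (hdec : C_DEC) [Algebra (ZMod p) k] [Fintype k] [Fintype C] [Finite Λ]
    (ψ : AddChar k ℂ) (G : B → Prop) (g : ℝ → ℝ) (K : ℕ) (hH : Hyp₂ S ψ G g K)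
    (T E i j : ℕ) (hi : 1 ≤ i) (hj : 1 ≤ j) (hTi : T ≤ i) (hTj : T ≤ j) (hij : i ≠ j)
    (s : k) (hs : s ≠ 0) (X : ℝ) (hX : 0 < X)
    (x : U) (t : k) (ht : t ≠ 0) (χ : AddChar Λ ℂ) (c y : B → k) (P : Finset B) :
    ‖∑ b ∈ P.powerset with (S.Fam b ∧ Ok S G T b), ∑ q ∈ b with (S.Wt E b q ∧ S.bl q = j),
      ∑ P₁ ∈ b with S.bl P₁ = i, (if Tp S T E b q c y P₁ then
      (Fintype.card k : ℂ) ^ (S.rs b q).card *
      ph S ψ χ b x (cutc S (S.bl q) q t c) (cuty S E (S.bl q) q s y) *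
      (Real.exp (-(S.nm b / X)) : ℂ) else 0)‖ ≤
    ∑ r ∈ P.powerset, Fintype.card C * ((Fintype.card k : ℝ) ^ 3 *
      ((Fintype.card k : ℝ) ^ r.card *
      (K * 2 ^ (i + j) * (i + j) ^ K * (2 : ℝ) ^ (-(min i j : ℝ) / K) *
        Real.exp (-(S.nm r / (2 * X / 2 ^ (i + j))))))) := by
  have e1 : ∑ b ∈ P.powerset with (S.Fam b ∧ Ok S G T b),
      ∑ q ∈ b with (S.Wt E b q ∧ S.bl q = j),
      ∑ P₁ ∈ b with S.bl P₁ = i, (if Tp S T E b q c y P₁ then
      (Fintype.card k : ℂ) ^ (S.rs b q).card *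
      ph S ψ χ b x (cutc S (S.bl q) q t c) (cuty S E (S.bl q) q s y) *
      (Real.exp (-(S.nm b / X)) : ℂ) else 0) =
      ∑ b ∈ P.powerset, ∑ q ∈ b, ∑ P₁ ∈ b, gg S ψ G T E i j s X x t χ c y b q P₁ := by
    rw [sum_filter]
    refine sum_congr rfl fun b _ => ?_
    by_cases h1 : S.Fam b ∧ Ok S G T b
    · rw [if_pos h1, sum_filter]
      refine sum_congr rfl fun q _ => ?_
      by_cases h2 : S.Wt E b q ∧ S.bl q = j
      · rw [if_pos h2, sum_filter]
        refine sum_congr rfl fun P₁ _ => ?_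
        unfold gg
        by_cases h3 : S.bl P₁ = i
        · rw [if_pos h3]
          by_cases h4 : Tp S T E b q c y P₁
          · rw [if_pos h4, if_pos ⟨h1, h2, h3, h4⟩, h2.2]
          · rw [if_neg h4, if_neg (fun h => h4 h.2.2.2)]
        · rw [if_neg h3, if_neg (fun h => h3 h.2.2.1)]
      · rw [if_neg h2]
        refine (sum_eq_zero fun P₁ _ => ?_).symm
        unfold gg
        rw [if_neg (fun h => h2 h.2.1)]
    · rw [if_neg h1]
      refine (sum_eq_zero fun q _ => sum_eq_zero fun P₁ _ => ?_).symm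
      unfold gg
      rw [if_neg (fun h => h1 h.1)]
  rw [e1, decomp hdec P (gg S ψ G T E i j s X x t χ c y) (fun b q => by
    unfold gg
    rw [if_neg (fun h => h.2.2.2.ne rfl)])]
  refine (norm_sum_le _ _).trans (sum_le_sum fun r _ => ?_)
  exact inner_le S ψ G g K hH T E i j hi hj hTi hTj hij s hs X hX x t ht χ c y P r


open Classical in
lemma ful_eq [Algebra (ZMod p) k] [Fintype k] [Fintype U] [Fintype Λ]
    (ψ : AddChar k ℂ) (E : ℕ) (P b : Finset B) (q : B) (s : k)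
    (F : (B → k) → (B → k) → Prop) (e : ℂ) :
    ful S ψ E P b q s F * e =
      ∑ z ∈ (univ : Finset U) ×ˢ ((univ : Finset k).erase 0) ×ˢ (univ : Finset (AddChar Λ ℂ)) ×ˢ
        (lab k P) ×ˢ (lab k P),
        (1 / (Fintype.card Λ * ((lab k P).card : ℂ) ^ 2)) *
        (if F z.2.2.2.1 z.2.2.2.2 then (Fintype.card k : ℂ) ^ (S.rs b q).card *
          ph S ψ z.2.2.1 b z.1 (cutc S (S.bl q) q z.2.1 z.2.2.2.1)
            (cuty S E (S.bl q) q s z.2.2.2.2) * e else 0) := by
  unfold ful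
  rw [sum_product]
  simp only [sum_product, sum_filter]
  simp only [mul_sum, sum_mul]
  refine sum_congr rfl fun x _ => ?_
  have h1 : (univ : Finset k).erase 0 = univ.filter fun t : k => t ≠ 0 := by
    ext t
    simp
  rw [h1, sum_filter]
  refine sum_congr rfl fun t _ => ?_
  split_ifs with ht
  · simp only [mul_sum, sum_mul]
    refine sum_congr rfl fun χ _ => sum_congr rfl fun c _ => sum_congr rfl fun y _ => ?_
    split_ifs
    · ring
    · ring
  · simp

open Classical in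
lemma total_le (hdec : C_DEC) [Algebra (ZMod p) k] [Fintype k] [Fintype C] [Fintype U]
    [Fintype Λ]
    (ψ : AddChar k ℂ) (G : B → Prop) (g : ℝ → ℝ) (K : ℕ) (hH : Hyp₂ S ψ G g K)
    (T E i j : ℕ) (hi : 1 ≤ i) (hj : 1 ≤ j) (hTi : T ≤ i) (hTj : T ≤ j) (hij : i ≠ j)
    (s : k) (hs : s ≠ 0) (X : ℝ) (hX : 0 < X) (P : Finset B) :
    ‖∑ b ∈ P.powerset with (S.Fam b ∧ Ok S G T b), ∑ q ∈ b with (S.Wt E b q ∧ S.bl q = j),
      ∑ q₁ ∈ b with S.bl q₁ = i, ful S ψ E P b q s (fun c y ↦ Tp S T E b q c y q₁) *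
        (Real.exp (-(S.nm b / X)) : ℂ)‖ ≤
    Fintype.card U * Fintype.card k *
    ∑ r ∈ P.powerset, Fintype.card C * ((Fintype.card k : ℝ) ^ 3 *
      ((Fintype.card k : ℝ) ^ r.card *
      (K * 2 ^ (i + j) * (i + j) ^ K * (2 : ℝ) ^ (-(min i j : ℝ) / K) *
        Real.exp (-(S.nm r / (2 * X / 2 ^ (i + j))))))) := by
  set M := ∑ r ∈ P.powerset, Fintype.card C * ((Fintype.card k : ℝ) ^ 3 *
      ((Fintype.card k : ℝ) ^ r.card *
      (K * 2 ^ (i + j) * (i + j) ^ K * (2 : ℝ) ^ (-(min i j : ℝ) / K) *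
        Real.exp (-(S.nm r / (2 * X / 2 ^ (i + j))))))) with hM
  have hM0 : 0 ≤ M := by
    rw [hM]
    positivity
  set Z : Finset (U × k × AddChar Λ ℂ × (B → k) × (B → k)) :=
    (univ : Finset U) ×ˢ ((univ : Finset k).erase 0) ×ˢ (univ : Finset (AddChar Λ ℂ)) ×ˢ
        (lab k P) ×ˢ (lab k P) with hZ
  have hlab : 0 < (lab k P).card := card_pos.2 ⟨0, mem_lab.2 fun _ _ => rfl⟩
  have e1 : ∑ b ∈ P.powerset with (S.Fam b ∧ Ok S G T b),
      ∑ q ∈ b with (S.Wt E b q ∧ S.bl q = j),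
      ∑ q₁ ∈ b with S.bl q₁ = i, ful S ψ E P b q s (fun c y ↦ Tp S T E b q c y q₁) *
        (Real.exp (-(S.nm b / X)) : ℂ) =
      ∑ z ∈ Z, (1 / (Fintype.card Λ * ((lab k P).card : ℂ) ^ 2)) *
      ∑ b ∈ P.powerset with (S.Fam b ∧ Ok S G T b), ∑ q ∈ b with (S.Wt E b q ∧ S.bl q = j),
      ∑ P₁ ∈ b with S.bl P₁ = i, (if Tp S T E b q z.2.2.2.1 z.2.2.2.2 P₁ then
      (Fintype.card k : ℂ) ^ (S.rs b q).card *
      ph S ψ z.2.2.1 b z.1 (cutc S (S.bl q) q z.2.1 z.2.2.2.1)
        (cuty S E (S.bl q) q s z.2.2.2.2) *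
      (Real.exp (-(S.nm b / X)) : ℂ) else 0) := by
    simp only [ful_eq, mul_sum]
    calc _ = ∑ b ∈ P.powerset with (S.Fam b ∧ Ok S G T b), ∑ z ∈ Z,
        ∑ q ∈ b with (S.Wt E b q ∧ S.bl q = j), ∑ P₁ ∈ b with S.bl P₁ = i,
          (1 / (Fintype.card Λ * ((lab k P).card : ℂ) ^ 2)) *
          (if Tp S T E b q z.2.2.2.1 z.2.2.2.2 P₁ then
      (Fintype.card k : ℂ) ^ (S.rs b q).card *
      ph S ψ z.2.2.1 b z.1 (cutc S (S.bl q) q z.2.1 z.2.2.2.1)
        (cuty S E (S.bl q) q s z.2.2.2.2) *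
      (Real.exp (-(S.nm b / X)) : ℂ) else 0) := by
          refine sum_congr rfl fun b _ => ?_
          exact Eq.trans (sum_congr rfl fun q _ => sum_comm) sum_comm
      _ = _ := sum_comm
  rw [e1]
  refine (norm_sum_le _ _).trans ?_
  have h1 : ∀ z ∈ Z, ‖(1 / (Fintype.card Λ * ((lab k P).card : ℂ) ^ 2)) *
      ∑ b ∈ P.powerset with (S.Fam b ∧ Ok S G T b), ∑ q ∈ b with (S.Wt E b q ∧ S.bl q = j),
      ∑ P₁ ∈ b with S.bl P₁ = i, (if Tp S T E b q z.2.2.2.1 z.2.2.2.2 P₁ then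
      (Fintype.card k : ℂ) ^ (S.rs b q).card *
      ph S ψ z.2.2.1 b z.1 (cutc S (S.bl q) q z.2.1 z.2.2.2.1)
        (cuty S E (S.bl q) q s z.2.2.2.2) *
      (Real.exp (-(S.nm b / X)) : ℂ) else 0)‖ ≤
      1 / (Fintype.card Λ * ((lab k P).card : ℝ) ^ 2) * M := by
    intro z hz
    rw [norm_mul, norm_div, norm_one, norm_mul, norm_pow, Complex.norm_natCast,
      Complex.norm_natCast]
    have h2 : z.2.1 ≠ 0 := by
      rw [hZ, mem_product, mem_product] at hz
      exact (mem_erase.1 hz.2.1).1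
    exact mul_le_mul_of_nonneg_left (fixed_le S hdec ψ G g K hH T E i j hi hj hTi hTj hij s hs
      X hX z.1 z.2.1 h2 z.2.2.1 z.2.2.2.1 z.2.2.2.2 P) (by positivity)
  refine (sum_le_sum h1).trans ?_
  rw [sum_const, nsmul_eq_mul]
  have h3 : Z.card = Fintype.card U * ((Fintype.card k - 1) * (Fintype.card Λ *
      ((lab k P).card * (lab k P).card))) := by
    rw [hZ, card_product, card_product, card_product, card_product, card_univ,
      card_erase_of_mem (mem_univ _), card_univ, card_univ, AddChar.card_eq]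
  have h4 : (Z.card : ℝ) ≤ Fintype.card U * Fintype.card k *
      (Fintype.card Λ * ((lab k P).card : ℝ) ^ 2) := by
    rw [h3]
    have h5 : Fintype.card U * ((Fintype.card k - 1) * (Fintype.card Λ *
        ((lab k P).card * (lab k P).card))) ≤
        Fintype.card U * Fintype.card k * (Fintype.card Λ * (lab k P).card ^ 2) := by
      have h6 : Fintype.card k - 1 ≤ Fintype.card k := Nat.sub_le _ _
      calc _ ≤ Fintype.card U * (Fintype.card k * (Fintype.card Λ *
          ((lab k P).card * (lab k P).card))) := by gcongr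
        _ = _ := by ring
    exact_mod_cast h5
  have h7 : (0 : ℝ) < (lab k P).card := by exact_mod_cast hlab
  have h8 : (0 : ℝ) < Fintype.card Λ := by exact_mod_cast Fintype.card_pos
  calc (Z.card : ℝ) * (1 / (Fintype.card Λ * ((lab k P).card : ℝ) ^ 2) * M) ≤
      (Fintype.card U * Fintype.card k * (Fintype.card Λ * ((lab k P).card : ℝ) ^ 2)) *
        (1 / (Fintype.card Λ * ((lab k P).card : ℝ) ^ 2) * M) := by gcongr
    _ = _ := by field_simp

open Classical in
lemma upto_sum [Algebra (ZMod p) k] [Fintype k]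
    (ψ : AddChar k ℂ) (g : ℝ → ℝ) (K : ℕ) (hH : Hyp₀ S ψ g K)
    (X Y : ℝ) (hYX : Y ≤ X) :
    ∑ q ∈ S.upto Y, (1 : ℝ) / S.N q ≤ K * (1 + Real.log (lg X + 1)) := by
  have h1 : ∀ q ∈ S.upto Y, S.bl q ∈ Icc 1 (lg X) := by
    intro q hq
    unfold Sys.upto at hq
    rw [Set.Finite.mem_toFinset] at hq
    have h2 : S.N q ≤ ⌊X⌋₊ := le_trans hq (Nat.floor_le_floor hYX)
    rw [mem_Icc]
    constructor
    · unfold Sys.bl
      exact Nat.log_pos (by norm_num) (S.two_le q)
    · unfold Sys.bl lg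
      exact Nat.log_mono_right h2
  rw [← sum_fiberwise_of_maps_to h1]
  have h2 : ∀ m ∈ Icc 1 (lg X), ∑ q ∈ S.upto Y with S.bl q = m, (1 : ℝ) / S.N q ≤
      K * (m : ℝ)⁻¹ := by
    intro m hm
    refine le_trans ?_ ((hH.che m (mem_Icc.1 hm).1).trans_eq (div_eq_mul_inv _ _))
    refine sum_le_sum_of_subset_of_nonneg ?_ fun q _ _ => by positivity
    intro q hq
    exact (mem_blk S m q).2 (mem_filter.1 hq).2
  refine (sum_le_sum h2).trans ?_
  rw [← mul_sum]
  refine mul_le_mul_of_nonneg_left ?_ (by positivity)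
  have h3 := harmonic_le_one_add_log (lg X)
  rw [harmonic_eq_sum_Icc] at h3
  push_cast at h3
  refine h3.trans ?_
  rcases Nat.eq_zero_or_pos (lg X) with h4 | h4
  · rw [h4]
    simp
  · have h5 : (0 : ℝ) < lg X := by exact_mod_cast h4
    have := Real.log_le_log h5 (show (lg X : ℝ) ≤ lg X + 1 by linarith)
    linarith

open Classical in
theorem r_osa (hdec : C_DEC) : Pool.Agent.Helper17.PP2.R_OSA := by
  intro p _ B B₀ k U Λ C _ _ _ _ _ _ _ _ _ _ _ S ψ G g K hH
  have : Fintype C := Fintype.ofFinite C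
  set n0 := (Fintype.card k - 1) * K with hn0
  set C1 : ℕ := 4 * Fintype.card U * Fintype.card k ^ 4 * Fintype.card C * K ^ 3 * 3 ^ n0
    with hC1
  refine ⟨C1 + n0, fun E T i j s X P hT hTi hTj hij hs hX => ?_⟩
  have hi : 1 ≤ i := hT.trans hTi
  have hj : 1 ≤ j := hT.trans hTj
  have hX0 : 0 < X := by linarith
  refine (total_le S hdec ψ G g K hH T E i j hi hj hTi hTj hij s hs X hX0 P).trans ?_
  set Y : ℝ := 2 * X / 2 ^ (i + j) with hY
  have hY0 : 0 < Y := by positivity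
  have h2ij : (2 : ℝ) ≤ 2 ^ (i + j) := by
    calc (2 : ℝ) = 2 ^ 1 := by norm_num
      _ ≤ 2 ^ (i + j) := pow_le_pow_right₀ (by norm_num) (by omega)
  have hYX : Y ≤ X := by
    rw [hY, div_le_iff₀ (by positivity)]
    nlinarith
  set w : ℝ := (2 : ℝ) ^ (-(min i j : ℝ) / K) with hw
  have hw0 : 0 ≤ w := by positivity
  have hQ1 : 1 ≤ Fintype.card k := Fintype.card_pos
  have hK1 : (1 : ℝ) ≤ K := by exact_mod_cast hH.one_le
  have hgX : 1 ≤ g X := hH.g_one X
  have hgY : g Y ≤ K * g X := hH.g_mono Y X hYX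
  have h1 := hH.ht (fun _ => Fintype.card k) (fun q => ⟨by positivity, by linarith⟩) Y hY0 P
  simp only [prod_const] at h1
  have h2 : ∑ q ∈ S.upto Y, ((Fintype.card k : ℝ) - 1) / S.N q ≤
      n0 * (1 + Real.log (lg X + 1)) := by
    have h3 := upto_sum S ψ g K hH.toHyp₀ X Y hYX
    have h4 : ∑ q ∈ S.upto Y, ((Fintype.card k : ℝ) - 1) / S.N q =
        ((Fintype.card k : ℝ) - 1) * ∑ q ∈ S.upto Y, (1 : ℝ) / S.N q := by
      rw [mul_sum]
      exact sum_congr rfl fun q _ => by ring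
    rw [h4, hn0]
    push_cast [Nat.cast_sub hQ1]
    rw [mul_assoc]
    refine mul_le_mul_of_nonneg_left h3 ?_
    have : (1 : ℝ) ≤ Fintype.card k := by exact_mod_cast hQ1
    linarith
  have hL0 : (0 : ℝ) < (lg X : ℝ) + 1 := by positivity
  have h3 : Real.exp (∑ q ∈ S.upto Y, ((Fintype.card k : ℝ) - 1) / S.N q) ≤
      3 ^ n0 * ((lg X : ℝ) + 2) ^ n0 := by
    calc _ ≤ Real.exp (n0 * (1 + Real.log (lg X + 1))) := Real.exp_le_exp.2 h2
      _ = (Real.exp 1 * (lg X + 1)) ^ n0 := by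
        rw [Real.exp_nat_mul, Real.exp_add, Real.exp_log hL0]
      _ ≤ (3 * ((lg X : ℝ) + 2)) ^ n0 := by
        have h4 : Real.exp 1 ≤ 3 := by
          have := Real.exp_one_lt_d9
          linarith
        refine pow_le_pow_left₀ (by positivity) ?_ _
        refine mul_le_mul h4 (by linarith) hL0.le (by norm_num)
      _ = _ := by rw [mul_pow]
  have hmin : min 1 Y ≤ 2 * min 1 (X / 2 ^ (i + j)) := by
    have h5 : Y = 2 * (X / 2 ^ (i + j)) := by
      rw [hY]
      ring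
    rw [h5]
    have h6 : 0 < X / 2 ^ (i + j) := by positivity
    rcases le_total 1 (X / 2 ^ (i + j)) with h7 | h7
    · rw [min_eq_left h7]
      exact (min_le_left _ _).trans (by norm_num)
    · rw [min_eq_right h7]
      exact min_le_right _ _
  set mm : ℝ := min 1 (X / 2 ^ (i + j)) with hmm
  have hmm0 : 0 ≤ mm := by
    rw [hmm]
    exact le_min (by norm_num) (by positivity)
  -- the sum over `r`
  have h8 : ∑ r ∈ P.powerset, Fintype.card C * ((Fintype.card k : ℝ) ^ 3 *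
      ((Fintype.card k : ℝ) ^ r.card *
      (K * 2 ^ (i + j) * (i + j) ^ K * w * Real.exp (-(S.nm r / Y))))) ≤
      Fintype.card C * (Fintype.card k : ℝ) ^ 3 * (K * 2 ^ (i + j) * (i + j) ^ K * w) *
        (K * (Y * (2 * mm) * (K * g X)) * (3 ^ n0 * ((lg X : ℝ) + 2) ^ n0)) := by
    have e1 : ∑ r ∈ P.powerset, Fintype.card C * ((Fintype.card k : ℝ) ^ 3 *
        ((Fintype.card k : ℝ) ^ r.card *
        (K * 2 ^ (i + j) * (i + j) ^ K * w * Real.exp (-(S.nm r / Y))))) =
        Fintype.card C * (Fintype.card k : ℝ) ^ 3 * (K * 2 ^ (i + j) * (i + j) ^ K * w) *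
        ∑ r ∈ P.powerset, (Fintype.card k : ℝ) ^ r.card * Real.exp (-(S.nm r / Y)) := by
      rw [mul_sum]
      exact sum_congr rfl fun r _ => by ring
    rw [e1]
    refine mul_le_mul_of_nonneg_left ?_ (by positivity)
    refine h1.trans ?_
    have hgY0 : 0 ≤ g Y := le_trans (by norm_num) (hH.g_one Y)
    have h9 : Y * min 1 Y * g Y ≤ Y * (2 * mm) * (K * g X) := by
      have h10 : 0 ≤ min 1 Y := le_min (by norm_num) hY0.le
      gcongr
    have h11 : 0 ≤ Y * min 1 Y * g Y := by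
      have h10 : 0 ≤ min 1 Y := le_min (by norm_num) hY0.le
      positivity
    refine mul_le_mul ?_ h3 (Real.exp_pos _).le ?_
    · exact mul_le_mul_of_nonneg_left h9 (by positivity)
    · have : 0 ≤ Y * (2 * mm) * (K * g X) := h11.trans h9
      positivity
  refine (mul_le_mul_of_nonneg_left h8 (by positivity)).trans ?_
  have h12 : (2 : ℝ) ^ (i + j) * Y = 2 * X := by
    rw [hY]
    field_simp
  have h13 : (Fintype.card U : ℝ) * Fintype.card k * (Fintype.card C *
      (Fintype.card k : ℝ) ^ 3 * (K * 2 ^ (i + j) * (i + j) ^ K * w) *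
        (K * (Y * (2 * mm) * (K * g X)) * (3 ^ n0 * ((lg X : ℝ) + 2) ^ n0))) =
      (C1 : ℝ) * ((lg X : ℝ) + 2) ^ n0 * (i + j) ^ K * w * mm * (X * g X) := by
    rw [hC1]
    push_cast
    linear_combination ((Fintype.card U : ℝ) * Fintype.card k ^ 4 * Fintype.card C * K ^ 3 *
      (i + j) ^ K * w * 2 * mm * g X * 3 ^ n0 * ((lg X : ℝ) + 2) ^ n0) * h12
  rw [h13]
  have h14 : (C1 : ℝ) ≤ ((C1 + n0 : ℕ) : ℝ) := by
    push_cast
    have : (0 : ℝ) ≤ n0 := Nat.cast_nonneg _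
    linarith
  have h15 : ((lg X : ℝ) + 2) ^ n0 ≤ ((lg X : ℝ) + 2) ^ (C1 + n0) := by
    refine pow_le_pow_right₀ ?_ (by omega)
    have : (0 : ℝ) ≤ lg X := Nat.cast_nonneg _
    linarith
  have h16 : 0 ≤ X * g X := by positivity
  gcongr

end Pool.Agent.Helper30.PP2
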